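import Pool.Agent.Q187.AJ.Conv

/-!
# The Bloch-Beilinson filtration on motives generated by curves and surfaces

Over the complex numbers we show that a Bloch-Beilinson filtration exists on (all the varieties
dominated by) all the products of curves and surfaces if and only if the Abel-Jacobi map is
injective on `CH^j` of the primitive motives of weight `2 j - 1`, that is, of the motives
`h^1(T_1) ⊗ ⋯ ⊗ h^1(T_s) ⊗ t_2(S_1) ⊗ ⋯ ⊗ t_2(S_r)` with `s + 2 r = 2 j - 1`, for all `j ≥ 2`.
-/

open CategoryTheory AlgebraicGeometry

universe u v w

namespace Pool.Agent.Results.MP_08891c_ag.AbelJacobiSuffices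

open Pool.Agent.H914 Pool.Agent.H914.VarClass Pool.Agent.H914.VarClass.Obj Pool.Agent.W492.BB
  Pool.Agent.TH133 Pool.Agent.Q187.AJS

/-- **The Bloch-Beilinson filtration and the injectivity of the Abel-Jacobi maps in weight
`2 j - 1`.** Let `C` be the Chow theory, `H` a Weil cohomology theory and `N` the family of the
kernels of the Abel-Jacobi maps on `CH^j(X)_hom`, on a class of smooth projective varieties closed
under products. Let `Q` be a class of pairs `(S, q)` of a surface and the projector on its
transcendental motive `t_2(S)` (for complex varieties: all surfaces), and let `𝓒` be the class of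
all the varieties which are dominated by products of curves and surfaces in `Q`.

1. (Over any field.) There is a Bloch-Beilinson filtration on `𝓒` (the conditions 1 - 4 for all the
  correspondences between members of `𝓒`) if and only if the primitive motives
  `(P, p) = h^1(T_1) ⊗ ⋯ ⊗ h^1(T_s) ⊗ t_2(S_1) ⊗ ⋯ ⊗ t_2(S_r)` have for all `j` the following
  properties, `n = s + 2 r` being the weight: `CH^j(P, p) = 0` if `2 j < n`; the cycle class map is
  injective on `CH^j(P, p)` if `2 j = n`; the Abel-Jacobi map is injective on `CH^j(P, p)_hom` if
  `2 j = n + 1`.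

Assume now the theorem of Bloch and Srinivas on families of cycles over curves (`FibreProperty`; it
holds over all uncountable algebraically closed fields).

2. There is a Bloch-Beilinson filtration on `𝓒` if and only if the last of the three properties
  holds: for all `j ≥ 2` the Abel-Jacobi maps are injective on `CH^j` of the primitive motives of
  weight `2 j - 1`.
3. If this is known for `2 ≤ j ≤ d` only, then for every product `Z` of dimension at most `d` there
  is a Bloch-Beilinson filtration on the class of the varieties dominated by `Z`.
4. If this is known for `j = 2`, then homologically trivial projectors `q` are zero (the conjecture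
  of Bloch on surfaces without transcendental cohomology). -/
theorem result {k : Type u} [Field k] {𝒱 : VarClass k} {C : TheoryData.{u, v, 0} 𝒱 ℚ}
    [IsChowProj C] {K : Type w} [Field K] {H : WeilTheoryData.{u, v, w} C K} [IsWeilProj H]
    {N : Fam C} (hN : IsAbelJacobiKernel C H N) {Q : ∀ S : 𝒱.Obj, C.A (S.prod S) → Prop}
    (hQ : ∀ S q, Q S q → IsTranscendental C H S q) :
    (HasBlochBeilinson C H N (Dominated C (IsProduct Q)) ↔
      ∀ (n : ℕ) (P : 𝒱.Obj) (p : C.A (P.prod P)), IsPrimitive Q n P p → Expected H N n P p) ∧
    (FibreProperty C →
      (HasBlochBeilinson C H N (Dominated C (IsProduct Q)) ↔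
        ∀ j : ℕ, 2 ≤ j → Injective Q N j) ∧
      (∀ (d : ℕ) (Z : 𝒱.Obj), (∀ j, 2 ≤ j → j ≤ d → Injective Q N j) → IsProduct Q Z →
        Z.dim ≤ d → HasBlochBeilinson C H N (Dominated C (fun Y => Y = Z))) ∧
      (Injective Q N 2 → ∀ (S : 𝒱.Obj) (q : C.A (S.prod S)), Q S q → Triv C H q → q = 0)) :=
  main hN hQ

end Pool.Agent.Results.MP_08891c_ag.AbelJacobiSuffices
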