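import Pool.Agent.Q28.MJ.Fin

/-!
# Bloch-Beilinson filtrations from one group `CH^(dim Z)(Z × Z)` per variety

A Bloch-Beilinson filtration on all varieties with `F^2` the kernel of the Abel-Jacobi map exists
(and the Künneth conjecture holds) as soon as every `Z` of a family of varieties, whose Chow motives
have all the others as direct summands, has ONE Chow-Kunneth decomposition `π` such that

* the homologically trivial classes `γ` of the one group `CH^(dim Z)(Z × Z)` satisfy
  `π_b ∘ γ ∘ π_a = 0` for `a ≤ b` (Murre's condition (D) for the one decomposition `π^t × π` of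
  `Z × Z` in the one codimension `dim Z`),
* `π^(2j-1)` acts as zero on the kernel of the Abel-Jacobi map on `CH^j(Z)`,
* `F^(j+1) CH^j(Z) = 0` for the filtration given by `π`.

Under the Lefschetz standard conjecture the last condition can be omitted, and the family has to
dominate all varieties only up to Tate twists. Nothing is assumed about correspondences of nonzero
degree, about products of different varieties or about other decompositions.
-/

open CategoryTheory AlgebraicGeometry

universe u v w

namespace Pool.Agent.Results.MP_08891c_ag.OneGroupPerVariety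

open Pool.Agent.H914 Pool.Agent.H914.VarClass Pool.Agent.H914.VarClass.Obj Pool.Agent.W492.BB
  Pool.Agent.Y148.BB Pool.Agent.Q28.MJ

/-- **Bloch-Beilinson filtrations from one group per variety.** Let `C` be the Chow theory and `H` a
Weil cohomology theory on a class of smooth projective varieties closed under products, `N X j`
the kernel of the Abel-Jacobi map on `CH^j(X)_hom` (for complex varieties the setting of the
problem), and `𝓕` a family of varieties.

1. Let some Tate twist `h(X)(-c)`, `c ≥ 0` depending on `X`, of the motive of every `X` be a direct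
  summand of the motive of some `Z` in `𝓕`. Equivalent are: the Künneth conjecture holds and there is
  a system of filtrations on all varieties with the properties 1 (including `F^2 = ker AJ`), 3 and 4
  and `F^(2j+1) CH^j = 0` for all `j`; the same with `F^(M j) CH^j = 0` for some function `M`; every
  single `Z` in `𝓕` has a Chow-Kunneth decomposition `π` such that `π_b ∘ γ ∘ π_a = 0`, `a ≤ b`, for
  the homologically trivial `γ` of the one group `CH^(dim Z)(Z × Z)`, and `π (2 j - 1)` kills the
  kernel of the Abel-Jacobi map on `CH^j(Z)` for all `j`.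
2. Let this be possible with all twists `c = 0`. The Künneth conjecture holds and there is a
  Bloch-Beilinson filtration on all varieties if and only if every single `Z` in `𝓕` has such a `π`
  which moreover satisfies `π_j CH^i(Z) = 0` for `j < i`, that is, `F^(i+1) CH^i(Z) = 0`.
3. Under the Lefschetz standard conjecture, for `𝓕` as in 1: the Künneth conjecture holds and
  there is a Bloch-Beilinson filtration on all varieties if and only if every `Z` in `𝓕` has a `π` as
  in 1. -/
theorem result {k : Type u} [Field k] {𝒱 : VarClass k} {C : TheoryData.{u, v, 0} 𝒱 ℚ}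
    [Pool.Agent.TH133.IsChowProj C] {K : Type w} [Field K] {H : WeilTheoryData.{u, v, w} C K}
    [Pool.Agent.TH133.IsWeilProj H] {N : ∀ X : 𝒱.Obj, ℕ → Submodule ℚ (C.A X)}
    (hN : IsAbelJacobiKernel H N) (𝓕 : 𝒱.Obj → Prop) :
    (Generates C Set.univ 𝓕 →
      [KunnethConjecture H ∧ ∃ F, IsSystem H N (fun j => 2 * j + 1) F,
        KunnethConjecture H ∧ ∃ M F, IsSystem H N M F,
        ∀ Z, 𝓕 Z → ∃ π : ℕ → C.A (Z.prod Z), IsGood H N π].TFAE) ∧
    (Generates C {0} 𝓕 →
      ((KunnethConjecture H ∧ ∃ F, IsSystem H N (fun j => j + 1) F) ↔
        ∀ Z, 𝓕 Z → ∃ π : ℕ → C.A (Z.prod Z), IsGood H N π ∧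
          ∀ (i j : ℕ) (z : C.A Z), C.Deg i z → j < i → C.act (π j) z = 0)) ∧
    (LefschetzFactors H → Generates C Set.univ 𝓕 →
      ((KunnethConjecture H ∧ ∃ F, IsSystem H N (fun j => j + 1) F) ↔
        ∀ Z, 𝓕 Z → ∃ π : ℕ → C.A (Z.prod Z), IsGood H N π)) :=
  final hN 𝓕

end Pool.Agent.Results.MP_08891c_ag.OneGroupPerVariety
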