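import Pool.Agent.Q187.MC.Conv

/-!
# The Bloch-Beilinson filtration and algebraically trivial cycles on powers of curves

For all the complex varieties dominated by products of curves (curves, abelian varieties, Fermat
hypersurfaces, ...) we show that a filtration with the properties 1 - 4 of a Bloch-Beilinson
filtration, except possibly for the condition `F^2 = ker AJ`, exists if and only if, for every
curve `T` and every `j ≥ 2`, the Abel-Jacobi map is injective on the algebraically trivial classes
in `CH^j` of the motive `h^1(T)^{⊗(2 j - 1)}`. The filtration is then unique, and the condition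
`F^2 = ker AJ` is automatic on algebraically trivial classes. The condition `F^2 = ker AJ` on all
classes holds if and only if the Abel-Jacobi maps are injective on `CH^j(h^1(T)^{⊗(2 j - 1)})`.
-/

open CategoryTheory AlgebraicGeometry

universe u v w

namespace Pool.Agent.Results.MP_08891c_ag.PowersOfOneCurve

open Pool.Agent.H914 Pool.Agent.H914.VarClass Pool.Agent.H914.VarClass.Obj Pool.Agent.W492.BB
  Pool.Agent.TH133 Pool.Agent.Q187.AJS Pool.Agent.Q187.BCS Pool.Agent.Q187.MCS

/-- **The Bloch-Beilinson filtration and algebraically trivial cycles on powers of one curve.** Let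
`C` be the Chow theory, `H` a Weil cohomology theory and `N` the family of the kernels of the
Abel-Jacobi maps on a class of smooth projective varieties closed under products. Assume the
theorem of Bloch and Srinivas on families of cycles over curves (`FibreProperty`), that
algebraically trivial classes in the kernel of the Abel-Jacobi map are given by families over
curves acting as zero on `H^1` (`SpreadProperty`: Poincare's reducibility theorem), and that any two
curves are dominated by a third one; all this is true for complex varieties. Let `𝓒` be the class
of the varieties which are dominated by products of curves.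

1. The following are equivalent: there is a filtration on `𝓒` with the properties 1 - 4 of the
  problem, for all correspondences between members of `𝓒`, except for the condition on `F^2`;
  there is such a filtration with `F^2` contained in the kernel of the Abel-Jacobi map, and equal
  to it on algebraically trivial classes; for all curves `T` and all `j ≥ 1` homologically trivial
  classes in `CH^j(h^1(T)^{⊗ 2 j})` are zero; for all curves `T` and all `j ≥ 2` the
  Abel-Jacobi map is injective on the algebraically trivial classes in `CH^j(h^1(T)^{⊗(2 j - 1)})`.
2. A filtration as in 1 is unique, and its step `F^2` is contained in the kernel of the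
  Abel-Jacobi map and equal to it on algebraically trivial classes.
3. There is a Bloch-Beilinson filtration on `𝓒`, with `F^2` the kernel of the Abel-Jacobi map, if
  and only if for all curves `T` and all `j ≥ 2` the Abel-Jacobi map is injective on
  `CH^j(h^1(T)^{⊗(2 j - 1)})_hom`.

(`pow T n` is `T^(n+1)`, and `oddPow C o n` is the projector on `h^1(T)^{⊗(n+1)}`.) -/
theorem result {k : Type u} [Field k] {𝒱 : VarClass k} {C : TheoryData.{u, v, 0} 𝒱 ℚ}
    [IsChowProj C] {K : Type w} [Field K] {H : WeilTheoryData.{u, v, w} C K} [IsWeilProj H]
    {N : Fam C} (hN : IsAbelJacobiKernel C H N) (hF : FibreProperty C)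
    (hG : SpreadProperty C H N) (hc : CommonCovers C) :
    List.TFAE [
      ∃ F, IsFiltration C H (Dominated C IsProductOfCurves) F,
      ∃ F, IsFiltration C H (Dominated C IsProductOfCurves) F ∧
        ∀ X, Dominated C IsProductOfCurves X → ∀ (j : ℕ) (z : C.A X),
          ((F 2).In j z → N.In j z) ∧ (AlgTriv C H j z → N.In j z → (F 2).In j z),
      ∀ j : ℕ, 1 ≤ j → ∀ (T : 𝒱.Obj) (o : C.A T), T.dim = 1 → DegreeOne C o →
        ∀ z : C.A (pow T (2 * j - 1)), C.Deg j z → Triv C H z →
          C.act (oddPow C o (2 * j - 1)) z = 0,
      ∀ j : ℕ, 2 ≤ j → ∀ (T : 𝒱.Obj) (o : C.A T), T.dim = 1 → DegreeOne C o →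
        ∀ z : C.A (pow T (2 * j - 2)), AlgTriv C H j z → N.In j z →
          C.act (oddPow C o (2 * j - 2)) z = 0] ∧
    (∀ F, IsFiltration C H (Dominated C IsProductOfCurves) F →
      ∀ X, Dominated C IsProductOfCurves X →
        (∀ (j : ℕ) (z : C.A X), ((F 2).In j z → N.In j z) ∧
          (AlgTriv C H j z → N.In j z → (F 2).In j z)) ∧
        ∀ F', IsFiltration C H (Dominated C IsProductOfCurves) F' →
          ∀ (ν j : ℕ) (z : C.A X), (F ν).In j z ↔ (F' ν).In j z) ∧
    (HasBlochBeilinson C H N (Dominated C IsProductOfCurves) ↔
      ∀ j : ℕ, 2 ≤ j → ∀ (T : 𝒱.Obj) (o : C.A T), T.dim = 1 → DegreeOne C o →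
        ∀ z : C.A (pow T (2 * j - 2)), N.In j z → C.act (oddPow C o (2 * j - 2)) z = 0) :=
  ⟨main_bb hN hF hG hc, fun _ hFF _ hX => main_unique hN hF hG hFF hX, main_full hN hF hc⟩

end Pool.Agent.Results.MP_08891c_ag.PowersOfOneCurve
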