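import Mathlib
import Pool.Agent.Q58.Scal.BBDefs
import Pool.Agent.Q58.Scal.Steps

/-!
# The Bloch-Beilinson filtration on zero-cycles of products of curves

Let `C_t`, `t ∈ T`, be finitely many smooth proper integral curves over an algebraically closed
field `k` (for instance `ℂ`), and consider all products `C^n = ∏_t C_t^{n_t}` and all
correspondences between them that are linear combinations of graphs of scalar morphisms
(`ScalarMor`), the morphisms that act on the Albanese varieties `∏_t J(C_t)^{n_t}` through rational
matrices.  There is exactly one system of filtrations of the Chow groups of zero-cycles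
`CH_0(C^n)_ℚ` with the properties of a Bloch-Beilinson filtration for these varieties and
correspondences (`IsBlochBeilinson`), in the strong form of the generalized Bloch conjecture: a
correspondence that acts as zero on holomorphic `i`-forms acts as zero on `gr^i`.  It is the
filtration `stdFil` by the classes that are killed by all scalar morphisms to products of less
than `i` of the curves; `F^1` consists of the classes of degree zero and `F^2` is the kernel of
the Albanese map.
-/

namespace Pool.Agent.Results.MP_08891c_ag.ProductsOfCurves

open AlgebraicGeometry CategoryTheory Limits Q58.Chow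

universe u

theorem result {k : Type u} [Field k] [IsAlgClosed k] {T : Type} [Fintype T] [DecidableEq T]
    (C : T → Sch k) [∀ t, IsCurve (C t)] (g : T → ℕ) (hg : ∀ t, genus (C t) = g t) :
    IsBlochBeilinson C g (stdFil C) ∧
      (∀ (n : T → ℕ) (z : CH0 (powX C n)), z ∈ stdFil C n 1 ↔ DegreeZero z) ∧
      (∀ (n : T → ℕ) (z : CH0 (powX C n)), z ∈ stdFil C n 2 ↔ AlbaneseTrivial z) ∧
      ∀ G : Filtrations C, IsBlochBeilinson C g G → G = stdFil C :=
  ⟨(bb_existsUnique hg).1, fun _ z => mem_filCH_one z, fun _ z => mem_filCH_two z,
    fun G hG => funext fun n => funext fun i => (bb_existsUnique hg).2 G hG n i⟩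

end Pool.Agent.Results.MP_08891c_ag.ProductsOfCurves
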